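import Mathlib

/-!
# A lower bound for the maximum Boolean dimension of posets of width `w`

For every `w ≥ 1` there is a finite poset of width `w` all of whose Boolean realizers have size
`d` with `2 ^ (w (w - 1)) ≤ ((2 w)! / w!) ^ d`, in particular `d ≥ (w - 1) / log₂ (2 w)`.
-/

namespace Pool.Agent.Results.MP_0cf6e1_co.LowerBound

/-- The poset `X` has a Boolean realizer of size `d`: there are `d` (strict) linear orders on `X`
and a Boolean function `τ` of `d` bits such that, for all distinct `x` and `y`, `x < y` in `X` if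
and only if `τ` is true at the vector whose `i`-th entry says whether `x` is before `y` in the
`i`-th linear order. -/
def HasBoolRealizer (X : Type) [PartialOrder X] (d : ℕ) : Prop :=
  ∃ (L : Fin d → X → X → Prop) (τ : (Fin d → Prop) → Prop),
    (∀ i, IsStrictTotalOrder X (L i)) ∧
      ∀ x y : X, x ≠ y → (x < y ↔ τ (fun i => L i x y))

/-- The poset `X` has width `w`: the largest size of an antichain of `X` is `w`. -/
def HasWidth (X : Type) [PartialOrder X] (w : ℕ) : Prop :=
  (∃ s : Finset X, IsAntichain (· ≤ ·) (s : Set X) ∧ s.card = w) ∧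
    ∀ s : Finset X, IsAntichain (· ≤ ·) (s : Set X) → s.card ≤ w

section Construction

variable {M H w : ℕ} (R : Fin M → ℕ → Fin w → Fin w → Prop)

/-- The strict order of the poset: `M` consecutive copies, each with levels `0, …, H`; an element
of level `i` is below all elements of the levels `≥ i + 2`, and below an element of level `i + 1`
if the two are in the same chain or the relation `R` says so. -/
def Lt (x y : Fin M × Fin (H + 1) × Fin w) : Prop :=
  x.1 < y.1 ∨ (x.1 = y.1 ∧ (x.2.1.val + 2 ≤ y.2.1.val ∨
    (x.2.1.val + 1 = y.2.1.val ∧ (x.2.2 = y.2.2 ∨ R x.1 x.2.1.val x.2.2 y.2.2))))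

theorem lt_level {x y : Fin M × Fin (H + 1) × Fin w} (h : Lt R x y) (hm : x.1 = y.1) :
    x.2.1.val < y.2.1.val := by
  rcases h with h | ⟨_, h | ⟨h, _⟩⟩
  · rw [hm] at h; exact absurd h (lt_irrefl _)
  · omega
  · omega

theorem lt_fst {x y : Fin M × Fin (H + 1) × Fin w} (h : Lt R x y) : x.1 ≤ y.1 := by
  rcases h with h | ⟨h, _⟩
  · exact h.le
  · exact h.le

instance lt_strict : IsStrictOrder (Fin M × Fin (H + 1) × Fin w) (Lt R) where
  irrefl x h := by
    have := lt_level R h rfl
    exact lt_irrefl _ this
  trans x y z hxy hyz := by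
    have h1 := lt_fst R hxy
    have h2 := lt_fst R hyz
    rcases h1.lt_or_eq with h | h
    · exact Or.inl (lt_of_lt_of_le h h2)
    · rcases h2.lt_or_eq with h' | h'
      · exact Or.inl (lt_of_le_of_lt h1 h')
      · refine Or.inr ⟨h.trans h', Or.inl ?_⟩
        have a := lt_level R hxy h
        have b := lt_level R hyz h'
        omega

/-- The poset. -/
@[reducible] def po : PartialOrder (Fin M × Fin (H + 1) × Fin w) :=
  @partialOrderOfSO _ (Lt R) (lt_strict R)

theorem width (hM : 0 < M) :
    @HasWidth (Fin M × Fin (H + 1) × Fin w) (po R) w := by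
  let _ := po (H := H) R
  constructor
  · refine ⟨Finset.univ.map ⟨fun a : Fin w => ((⟨0, hM⟩ : Fin M), (0 : Fin (H + 1)), a), ?_⟩, ?_, ?_⟩
    · intro a b hab
      simpa using hab
    · intro x hx y hy hxy hle
      rw [Finset.coe_map, Set.mem_image] at hx hy
      obtain ⟨a, _, rfl⟩ := hx
      obtain ⟨b, _, rfl⟩ := hy
      rcases hle with h | h
      · exact hxy h
      · have := lt_level R h rfl
        simp at this
    · simp
  · intro s hs
    have : Set.InjOn (fun x : Fin M × Fin (H + 1) × Fin w => x.2.2) (s : Set _) := by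
      intro x hx y hy hxy
      by_contra hne
      have hxy' : x.2.2 = y.2.2 := hxy
      have key : Lt R x y ∨ Lt R y x := by
        rcases lt_trichotomy x.1 y.1 with h | h | h
        · exact Or.inl (Or.inl h)
        · rcases lt_trichotomy x.2.1.val y.2.1.val with h' | h' | h'
          · refine Or.inl (Or.inr ⟨h, ?_⟩)
            by_cases h2 : x.2.1.val + 1 = y.2.1.val
            · exact Or.inr ⟨h2, Or.inl hxy'⟩
            · exact Or.inl (by omega)
          · exact absurd (Prod.ext h (Prod.ext (Fin.ext h') hxy')) hne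
          · refine Or.inr (Or.inr ⟨h.symm, ?_⟩)
            by_cases h2 : y.2.1.val + 1 = x.2.1.val
            · exact Or.inr ⟨h2, Or.inl hxy'.symm⟩
            · exact Or.inl (by omega)
        · exact Or.inr (Or.inl h)
      rcases key with h | h
      · exact hs hx hy hne (Or.inr h)
      · exact hs hy hx (Ne.symm hne) (Or.inr h)
    calc s.card = (s.image (fun x => x.2.2)).card := (Finset.card_image_of_injOn this).symm
      _ ≤ (Finset.univ : Finset (Fin w)).card := Finset.card_le_card (Finset.subset_univ _)
      _ = w := by simp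

end Construction


section Ranks

variable {X : Type} {w : ℕ}

open Classical in
/-- The rank of `u a` among the elements `u 0, …, u (w - 1)`. -/
noncomputable def rk (L : X → X → Prop) (u : Fin w → X) (a : Fin w) : ℕ :=
  (Finset.univ.filter fun b => L (u b) (u a)).card

open Classical in
/-- The number of elements `u a` before `v b`. -/
noncomputable def below (L : X → X → Prop) (u v : Fin w → X) (b : Fin w) : ℕ :=
  (Finset.univ.filter fun a => L (u a) (v b)).card

/-- The rank of `v b` among all the elements `u a` and `v b'`. -/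
noncomputable def cr (L : X → X → Prop) (u v : Fin w → X) (b : Fin w) : ℕ :=
  below L u v b + rk L v b

variable {L : X → X → Prop} [hL : IsStrictTotalOrder X L] {u v : Fin w → X}

theorem rk_lt (a : Fin w) : rk L u a < w := by
  classical
  have : (Finset.univ.filter fun b => L (u b) (u a)) ⊂ (Finset.univ : Finset (Fin w)) := by
    rw [Finset.ssubset_univ_iff]
    intro h
    have ha : a ∈ (Finset.univ.filter fun b => L (u b) (u a)) := by rw [h]; simp
    exact irrefl_of L _ (Finset.mem_filter.1 ha).2
  have h2 := Finset.card_lt_card this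
  simpa [rk] using h2

omit hL in
theorem below_le (b : Fin w) : below L u v b ≤ w := by
  classical
  have := Finset.card_le_card (Finset.subset_univ (Finset.univ.filter fun a => L (u a) (v b)))
  simpa [below] using this

theorem cr_lt (b : Fin w) : cr L u v b < 2 * w := by
  have h1 := below_le (L := L) (u := u) (v := v) b
  have h2 := rk_lt (L := L) (u := v) b
  unfold cr
  omega

theorem cr_strict {b b' : Fin w} (h : L (v b) (v b')) : cr L u v b < cr L u v b' := by
  classical
  have h1 : below L u v b ≤ below L u v b' := by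
    refine Finset.card_le_card ?_
    intro a ha
    simp only [Finset.mem_filter, Finset.mem_univ, true_and] at ha ⊢
    exact trans_of L ha h
  have h2 : rk L v b < rk L v b' := by
    refine Finset.card_lt_card ?_
    rw [Finset.ssubset_iff_of_subset]
    · refine ⟨b, by simpa using h, ?_⟩
      simp only [Finset.mem_filter, Finset.mem_univ, true_and]
      exact irrefl_of L _
    · intro a ha
      simp only [Finset.mem_filter, Finset.mem_univ, true_and] at ha ⊢
      exact trans_of L ha h
  unfold cr
  omega

theorem cr_lt_iff (hv : Function.Injective v) {b b' : Fin w} :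
    cr L u v b < cr L u v b' ↔ L (v b) (v b') := by
  constructor
  · intro h
    rcases trichotomous_of L (v b) (v b') with h' | h' | h'
    · exact h'
    · rw [hv h'] at h
      exact absurd h (lt_irrefl _)
    · exact absurd h (not_lt.2 (cr_strict h').le)
  · exact cr_strict

theorem cr_injective (hv : Function.Injective v) : Function.Injective (cr L u v) := by
  intro b b' h
  rcases trichotomous_of L (v b) (v b') with h' | h' | h'
  · exact absurd h (cr_strict h').ne
  · exact hv h'
  · exact absurd h (cr_strict h').ne'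

theorem rk_eq_of_cr (hv : Function.Injective v) (b : Fin w) :
    rk L v b = (Finset.univ.filter fun b' => cr L u v b' < cr L u v b).card := by
  classical
  unfold rk
  congr 1
  ext b'
  simp only [Finset.mem_filter, Finset.mem_univ, true_and]
  rw [cr_lt_iff hv]

theorem cross_iff (huv : ∀ a b, u a ≠ v b) (a b : Fin w) :
    L (u a) (v b) ↔ rk L u a < below L u v b := by
  classical
  constructor
  · intro h
    refine Finset.card_lt_card ?_
    rw [Finset.ssubset_iff_of_subset]
    · refine ⟨a, by simpa using h, ?_⟩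
      simp only [Finset.mem_filter, Finset.mem_univ, true_and]
      exact irrefl_of L _
    · intro a' ha
      simp only [Finset.mem_filter, Finset.mem_univ, true_and] at ha ⊢
      exact trans_of L ha h
  · intro h
    by_contra hn
    have h' : L (v b) (u a) := by
      rcases trichotomous_of L (u a) (v b) with h' | h' | h'
      · exact absurd h' hn
      · exact absurd h' (huv a b)
      · exact h'
    refine absurd h (not_lt.2 (Finset.card_le_card ?_))
    intro a' ha
    simp only [Finset.mem_filter, Finset.mem_univ, true_and] at ha ⊢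
    exact trans_of L ha h'

end Ranks

/-- Two pairs of levels with the same data compare in the same way. -/
theorem transfer {X X' : Type} {w : ℕ} {L : X → X → Prop} [IsStrictTotalOrder X L]
    {L' : X' → X' → Prop} [IsStrictTotalOrder X' L'] {u v : Fin w → X} {u' v' : Fin w → X'}
    (hv : Function.Injective v) (hv' : Function.Injective v') (huv : ∀ a b, u a ≠ v b)
    (huv' : ∀ a b, u' a ≠ v' b) (h1 : rk L u = rk L' u') (h2 : cr L u v = cr L' u' v') :
    rk L v = rk L' v' ∧ ∀ a b, L (u a) (v b) ↔ L' (u' a) (v' b) := by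
  have h3 : rk L v = rk L' v' := by
    funext b
    rw [rk_eq_of_cr (u := u) hv b, rk_eq_of_cr (u := u') hv' b, h2]
  refine ⟨h3, fun a b => ?_⟩
  rw [cross_iff (L := L) huv, cross_iff (L := L') huv', h1]
  have h4 := congrFun h2 b
  unfold cr at h4
  rw [congrFun h3 b] at h4
  rw [Nat.add_right_cancel h4]

section Counting

variable {M H w d : ℕ} {R : Fin M → ℕ → Fin w → Fin w → Prop}

/-- Level `i` of the `m`-th copy. -/
def lev (m : Fin M) (i : Fin (H + 1)) (a : Fin w) : Fin M × Fin (H + 1) × Fin w := (m, i, a)

theorem lev_injective (m : Fin M) (i : Fin (H + 1)) :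
    Function.Injective (lev (w := w) m i) := by
  intro a b h
  simpa [lev] using h

theorem lev_ne {m : Fin M} {i j : Fin (H + 1)} (h : i ≠ j) (a b : Fin w) :
    lev m i a ≠ lev m j b := by
  intro h'
  apply h
  simpa [lev] using (congrArg (fun x => x.2.1) h')

theorem counting
    (hR : ∀ m m' : Fin M, (∀ i : Fin H, ∀ a b : Fin w, a ≠ b → (R m i a b ↔ R m' i a b)) → m = m')
    (h : @HasBoolRealizer (Fin M × Fin (H + 1) × Fin w) (po R) d) :
    M ≤ (w ^ w) ^ d * (((2 * w).descFactorial w) ^ d) ^ H := by
  classical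
  let _ := po (H := H) R
  obtain ⟨L, τ, hL, hτ⟩ := h
  have hord : ∀ (m : Fin M) (i : Fin H) (a b : Fin w), a ≠ b →
      (R m i a b ↔ τ (fun k => L k (lev m i.castSucc a) (lev m i.succ b))) := by
    intro m i a b hab
    rw [← hτ _ _ (lev_ne (Fin.castSucc_lt_succ (i := i)).ne a b)]
    constructor
    · intro hr
      exact Or.inr ⟨rfl, Or.inr ⟨by simp [lev], Or.inr (by simpa [lev] using hr)⟩⟩
    · intro hlt
      have hlt' : Lt R (lev m i.castSucc a) (lev m i.succ b) := hlt
      rcases hlt' with hh | ⟨_, hh | ⟨_, hh | hh⟩⟩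
      · exact absurd hh (lt_irrefl _)
      · simp [lev] at hh
      · exact absurd hh hab
      · simpa [lev] using hh
  let code : Fin M → (Fin d → Fin w → Fin w) × (Fin H → Fin d → (Fin w ↪ Fin (2 * w))) :=
    fun m => (fun k a => ⟨rk (L k) (lev m 0) a, rk_lt a⟩,
      fun i k => ⟨fun b => ⟨cr (L k) (lev m i.castSucc) (lev m i.succ) b, cr_lt b⟩, by
        intro b b' hb
        exact cr_injective (lev_injective _ _) (by simpa using hb)⟩)
  have hinj : Function.Injective code := by
    intro m m' hm
    apply hR
    have h0 : ∀ k, rk (L k) (lev m 0) = rk (L k) (lev m' 0) := by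
      intro k
      funext a
      have := congrFun (congrFun (congrArg Prod.fst hm) k) a
      simpa [code] using this
    have h1 : ∀ (i : Fin H) (k : Fin d), cr (L k) (lev m i.castSucc) (lev m i.succ) =
        cr (L k) (lev m' i.castSucc) (lev m' i.succ) := by
      intro i k
      funext b
      have := congrArg (fun f => f b) (congrFun (congrFun (congrArg Prod.snd hm) i) k)
      simpa [code] using this
    have h2 : ∀ (n : ℕ) (hn : n < H + 1) (k : Fin d),
        rk (L k) (lev m ⟨n, hn⟩) = rk (L k) (lev m' ⟨n, hn⟩) := by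
      intro n
      induction n with
      | zero => intro hn k; exact h0 k
      | succ n ih =>
        intro hn k
        have hn' : n < H := by omega
        exact (transfer (lev_injective m (Fin.succ ⟨n, hn'⟩)) (lev_injective m' (Fin.succ ⟨n, hn'⟩))
          (lev_ne (Fin.castSucc_lt_succ (i := ⟨n, hn'⟩)).ne)
          (lev_ne (Fin.castSucc_lt_succ (i := ⟨n, hn'⟩)).ne) (ih (by omega) k) (h1 ⟨n, hn'⟩ k)).1
    intro i a b hab
    rw [hord m i a b hab, hord m' i a b hab]
    have : (fun k => L k (lev m i.castSucc a) (lev m i.succ b)) =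
        (fun k => L k (lev m' i.castSucc a) (lev m' i.succ b)) := by
      funext k
      exact propext ((transfer (lev_injective m i.succ) (lev_injective m' i.succ)
          (lev_ne (Fin.castSucc_lt_succ (i := i)).ne)
          (lev_ne (Fin.castSucc_lt_succ (i := i)).ne) (h2 i.val _ k) (h1 i k)).2 a b)
    rw [this]
  have hcard := Fintype.card_le_of_injective code hinj
  simpa [Fintype.card_embedding_eq] using hcard

end Counting


/-- The relations between consecutive levels. -/
abbrev Rel (w : ℕ) : Type := {p : Fin w × Fin w // p.1 ≠ p.2} → Bool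

theorem card_rel (w : ℕ) : Fintype.card (Rel w) = 2 ^ (w * (w - 1)) := by
  have h : Fintype.card {p : Fin w × Fin w // p.1 ≠ p.2} = w * (w - 1) := by
    rw [Fintype.card_subtype]
    have := Finset.offDiag_card (Finset.univ : Finset (Fin w))
    have h2 : (Finset.univ : Finset (Fin w)).offDiag =
        Finset.univ.filter (fun p : Fin w × Fin w => p.1 ≠ p.2) := by
      ext p
      simp
    rw [← h2, this]
    simp only [Finset.card_univ, Fintype.card_fin]
    rw [Nat.mul_sub, Nat.mul_one]
  simp [Rel, h]

/-- A power beats a constant times a smaller power. -/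
theorem exists_pow_gt (b C : ℕ) (hb : 1 < b) : ∃ H : ℕ, C * (b - 1) ^ H < b ^ H := by
  rcases Nat.lt_or_ge 2 b with h | h
  · have hb1 : (1 : ℝ) < (b : ℝ) / ((b - 1 : ℕ) : ℝ) := by
      have h1 : (0 : ℝ) < ((b - 1 : ℕ) : ℝ) := by
        have : 0 < b - 1 := by omega
        exact_mod_cast this
      rw [lt_div_iff₀ h1, one_mul]
      have : b - 1 < b := by omega
      exact_mod_cast this
    obtain ⟨n, hn⟩ := pow_unbounded_of_one_lt (C : ℝ) hb1
    refine ⟨n, ?_⟩
    have h1 : (0 : ℝ) < ((b - 1 : ℕ) : ℝ) := by
      have : 0 < b - 1 := by omega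
      exact_mod_cast this
    rw [div_pow, lt_div_iff₀ (pow_pos h1 n)] at hn
    exact_mod_cast hn
  · have : b = 2 := by omega
    subst this
    obtain ⟨n, hn⟩ := pow_unbounded_of_one_lt C (show 1 < 2 by norm_num)
    exact ⟨n, by simpa using hn⟩

theorem two_le_desc {w : ℕ} (hw : 1 ≤ w) : 2 ≤ (2 * w).descFactorial w := by
  have h1 : (2 * w + 1 - w) ^ w ≤ (2 * w).descFactorial w := Nat.pow_sub_le_descFactorial _ _
  have h2 : 2 * w + 1 - w = w + 1 := by omega
  rw [h2] at h1
  calc 2 ≤ w + 1 := by omega
    _ = (w + 1) ^ 1 := (pow_one _).symm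
    _ ≤ (w + 1) ^ w := Nat.pow_le_pow_right (by omega) hw
    _ ≤ _ := h1

theorem main (w : ℕ) (hw : 1 ≤ w) :
    ∃ (X : Type) (_ : Fintype X) (_ : PartialOrder X), HasWidth X w ∧
      ∀ d : ℕ, HasBoolRealizer X d → 2 ^ (w * (w - 1)) ≤ ((2 * w).descFactorial w) ^ d := by
  classical
  rcases Nat.lt_or_ge 1 (2 ^ (w * (w - 1))) with hb | hb
  · set b := 2 ^ (w * (w - 1)) with hbdef
    obtain ⟨H, hH⟩ := exists_pow_gt b ((w ^ w) ^ (w * (w - 1))) hb
    let S := Fin H → Rel w
    let M := Fintype.card S
    have hMcard : M = b ^ H := by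
      simp only [M, S, Fintype.card_fun, Fintype.card_fin, hbdef]
      rw [← card_rel w, Fintype.card_fun]
    let e : Fin M ≃ S := (Fintype.equivFin S).symm
    let R : Fin M → ℕ → Fin w → Fin w → Prop := fun m i a b =>
      if hi : i < H then (if hab : a ≠ b then e m ⟨i, hi⟩ ⟨(a, b), hab⟩ = true else False) else False
    have hR : ∀ m m' : Fin M,
        (∀ i : Fin H, ∀ a b : Fin w, a ≠ b → (R m i a b ↔ R m' i a b)) → m = m' := by
      intro m m' h
      apply e.injective
      funext i p
      obtain ⟨⟨a, c⟩, hac⟩ := p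
      have h1 := h i a c hac
      simp only [R, i.isLt, dif_pos, hac, ne_eq, not_false_eq_true] at h1
      exact Bool.eq_iff_iff.2 h1
    have hM : 0 < M := by
      rw [hMcard]
      positivity
    refine ⟨Fin M × Fin (H + 1) × Fin w, inferInstance, po R, width R hM, ?_⟩
    intro d hd
    by_contra hcon
    rw [not_le] at hcon
    have hcount := counting hR hd
    have hdlt : d < w * (w - 1) := by
      have h1 : 2 ^ d ≤ ((2 * w).descFactorial w) ^ d := Nat.pow_le_pow_left (two_le_desc hw) d
      have h2 : 2 ^ d < 2 ^ (w * (w - 1)) := lt_of_le_of_lt h1 hcon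
      exact (Nat.pow_lt_pow_iff_right (by norm_num)).1 h2
    have h3 : (w ^ w) ^ d ≤ (w ^ w) ^ (w * (w - 1)) :=
      Nat.pow_le_pow_right (Nat.pow_pos (by omega)) hdlt.le
    have h4 : (((2 * w).descFactorial w) ^ d) ^ H ≤ (b - 1) ^ H :=
      Nat.pow_le_pow_left (by omega) H
    have h5 := Nat.mul_le_mul h3 h4
    rw [hMcard] at hcount
    omega
  · refine ⟨Fin 1 × Fin (0 + 1) × Fin w, inferInstance, po (fun _ _ _ _ => False),
      width _ Nat.one_pos, ?_⟩
    intro d _
    calc 2 ^ (w * (w - 1)) ≤ 1 := hb
      _ ≤ ((2 * w).descFactorial w) ^ d :=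
        Nat.one_le_iff_ne_zero.2 (Nat.pow_pos (by have := two_le_desc hw; omega)).ne'

theorem real_bound {w d : ℕ} (hw : 1 ≤ w)
    (h : 2 ^ (w * (w - 1)) ≤ ((2 * w).descFactorial w) ^ d) :
    (w : ℝ) - 1 ≤ d * Real.logb 2 (2 * w) := by
  have h1 : (2 : ℕ) ^ (w * (w - 1)) ≤ (2 * w) ^ (w * d) := by
    refine h.trans ?_
    rw [pow_mul]
    exact Nat.pow_le_pow_left (Nat.descFactorial_le_pow _ _) d
  have h2 : ((2 : ℝ)) ^ (w * (w - 1)) ≤ (2 * (w : ℝ)) ^ (w * d) := by exact_mod_cast h1
  have hw0 : (0 : ℝ) < w := by exact_mod_cast hw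
  have h3 := Real.logb_le_logb_of_le (b := 2) (by norm_num) (by positivity) h2
  rw [Real.logb_pow, Real.logb_pow, Real.logb_self_eq_one (by norm_num), mul_one] at h3
  push_cast [Nat.cast_sub hw] at h3
  have h4 : (w : ℝ) * ((w : ℝ) - 1) ≤ w * (d * Real.logb 2 (2 * w)) := by
    rw [← mul_assoc]
    exact h3
  exact le_of_mul_le_mul_left h4 hw0

/-- For every `w ≥ 1` there is a finite poset `X` of width `w` such that every `d` for which `X`
has a Boolean realizer of size `d` satisfies `2 ^ (w (w - 1)) ≤ ((2 w)! / w!) ^ d`, and hence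
`w - 1 ≤ d log₂ (2 w)`. -/
theorem result : ∀ w : ℕ, 1 ≤ w →
    ∃ (X : Type) (_ : Fintype X) (_ : PartialOrder X), HasWidth X w ∧
      ∀ d : ℕ, HasBoolRealizer X d →
        2 ^ (w * (w - 1)) ≤ ((2 * w).descFactorial w) ^ d ∧
          (w : ℝ) - 1 ≤ d * Real.logb 2 (2 * w) := by
  intro w hw
  obtain ⟨X, i1, i2, h1, h2⟩ := main w hw
  exact ⟨X, i1, i2, h1, fun d hd => ⟨h2 d hd, real_bound hw (h2 d hd)⟩⟩

end Pool.Agent.Results.MP_0cf6e1_co.LowerBound
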